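import Mathlib

set_option autoImplicit false

/-!
# MP_3240be_co, H34: vertex sets without cut vertices, ears, blocks (helper34)
-/

namespace MP3240L

open SimpleGraph

variable {V : Type} {H : SimpleGraph V}

/-- `S` has two vertices, `H[S]` is connected and has no cut vertex. -/
structure Two (H : SimpleGraph V) (S : Set V) : Prop where
  nt : ∃ x ∈ S, ∃ y ∈ S, x ≠ y
  conn : (H.induce S).Connected
  cut : ∀ a ∈ S, (H.induce (S \ {a})).Connected

theorem Two.diff {S : Set V} (hS : Two H S) (a : V) : (H.induce (S \ {a})).Connected := by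
  by_cases h : a ∈ S
  · exact hS.cut a h
  · rw [Set.sdiff_singleton_eq_self h]
    exact hS.conn

theorem two_adj {u v : V} (h : H.Adj u v) : Two H {u, v} := by
  have hne := h.ne
  refine ⟨⟨u, by simp, v, by simp, hne⟩, induce_pair_connected_of_adj h, ?_⟩
  intro a ha
  have hs : ∀ w : V, (H.induce ({w} : Set V)).Connected := by
    intro w
    have : Subsingleton ({w} : Set V) := inferInstance
    have : Nonempty ({w} : Set V) := ⟨⟨w, rfl⟩⟩
    exact ⟨Preconnected.of_subsingleton⟩
  rcases ha with rfl | ha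
  · have : ({a, v} : Set V) \ {a} = {v} := by
      ext x
      simp only [Set.mem_sdiff, Set.mem_insert_iff, Set.mem_singleton_iff]
      constructor
      · rintro ⟨h1 | h1, h2⟩
        · exact absurd h1 h2
        · exact h1
      · rintro rfl
        exact ⟨Or.inr rfl, hne.symm⟩
    rw [this]
    exact hs v
  · rw [Set.mem_singleton_iff] at ha
    subst ha
    have : ({u, a} : Set V) \ {a} = {u} := by
      ext x
      simp only [Set.mem_sdiff, Set.mem_insert_iff, Set.mem_singleton_iff]
      constructor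
      · rintro ⟨h1 | h1, h2⟩
        · exact h1
        · exact absurd h1 h2
      · rintro rfl
        exact ⟨Or.inl rfl, hne⟩
    rw [this]
    exact hs u

/-- Two sets without cut vertices which share two vertices. -/
theorem Two.union {S T : Set V} (hS : Two H S) (hT : Two H T) {x y : V} (hxy : x ≠ y)
    (hxS : x ∈ S) (hxT : x ∈ T) (hyS : y ∈ S) (hyT : y ∈ T) : Two H (S ∪ T) := by
  refine ⟨⟨x, Or.inl hxS, y, Or.inl hyS, hxy⟩,
    induce_union_connected hS.conn.preconnected hT.conn.preconnected ⟨x, hxS, hxT⟩, ?_⟩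
  intro a _
  rw [Set.union_sdiff_distrib]
  refine induce_union_connected (hS.diff a).preconnected (hT.diff a).preconnected ?_
  by_cases hxa : x = a
  · exact ⟨y, ⟨hyS, fun h => hxy (hxa.trans h.symm)⟩, ⟨hyT, fun h => hxy (hxa.trans h.symm)⟩⟩
  · exact ⟨x, ⟨hxS, hxa⟩, ⟨hxT, hxa⟩⟩

/-- A connected set together with connected sets that meet it. -/
theorem conn_patch {S R : Set V} (hS : (H.induce S).Connected)
    (h : ∀ x ∈ R, ∃ C : Set V, C ⊆ R ∧ x ∈ C ∧ (H.induce C).Connected ∧ (S ∩ C).Nonempty) :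
    (H.induce (S ∪ R)).Connected := by
  obtain ⟨⟨s, hs⟩⟩ := hS.nonempty
  refine induce_connected_of_patches s (Or.inl hs) ?_
  intro v hv
  rcases hv with hv | hv
  · exact ⟨S, Set.subset_union_left, hs, hv, hS.preconnected _ _⟩
  · obtain ⟨C, hC, hx, hc, hi⟩ := h v hv
    exact ⟨S ∪ C, Set.union_subset_union_right S hC, Or.inl hs, Or.inr hx,
      (induce_union_connected hS.preconnected hc.preconnected hi).preconnected _ _⟩

/-- Adding an ear. -/
theorem Two.ear {S : Set V} (hS : Two H S) {u v : V} (hu : u ∈ S) (hv : v ∈ S) (huv : u ≠ v)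
    (p : H.Walk u v) (hp : p.IsPath) : Two H (S ∪ {x | x ∈ p.support}) := by
  refine ⟨⟨u, Or.inl hu, v, Or.inl hv, huv⟩,
    induce_union_connected hS.conn.preconnected p.connected_induce_support.preconnected
      ⟨u, hu, p.start_mem_support⟩, ?_⟩
  intro a _
  rw [Set.union_sdiff_distrib]
  refine conn_patch (hS.diff a) ?_
  rintro x ⟨hx, hxa⟩
  have hxa' : x ≠ a := hxa
  by_cases ha : a ∈ p.support
  · obtain ⟨q, r, hq, hr, rfl⟩ := hp.mem_support_iff_exists_append.1 ha
    have hx' : x ∈ (q.append r).support := hx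
    rw [Walk.mem_support_append_iff] at hx'
    rcases hx' with hx' | hx'
    · obtain ⟨q1, q2, h1, h2, rfl⟩ := hq.mem_support_iff_exists_append.1 hx'
      have key : ∀ z ∈ q1.support, z ≠ a := fun z hz =>
        hq.ne_of_mem_support_of_append (Ne.symm hxa') hz q2.end_mem_support
      refine ⟨{z | z ∈ q1.support}, ?_, q1.end_mem_support, q1.connected_induce_support, u,
        ⟨hu, key u q1.start_mem_support⟩, q1.start_mem_support⟩
      intro z hz
      refine ⟨?_, key z hz⟩
      show z ∈ ((q1.append q2).append r).support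
      rw [Walk.mem_support_append_iff, Walk.mem_support_append_iff]
      exact Or.inl (Or.inl hz)
    · obtain ⟨r1, r2, h1, h2, rfl⟩ := hr.mem_support_iff_exists_append.1 hx'
      have key : ∀ z ∈ r2.support, z ≠ a := by
        intro z hz hza
        subst hza
        exact hr.ne_of_mem_support_of_append (Ne.symm hxa') r1.start_mem_support hz rfl
      refine ⟨{z | z ∈ r2.support}, ?_, r2.start_mem_support, r2.connected_induce_support, v,
        ⟨hv, key v r2.end_mem_support⟩, r2.end_mem_support⟩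
      intro z hz
      refine ⟨?_, key z hz⟩
      show z ∈ (q.append (r1.append r2)).support
      rw [Walk.mem_support_append_iff, Walk.mem_support_append_iff]
      exact Or.inr (Or.inr hz)
  · refine ⟨{z | z ∈ p.support}, ?_, hx, p.connected_induce_support, u, ⟨hu, ?_⟩,
      p.start_mem_support⟩
    · intro z hz
      exact ⟨hz, fun h => ha (by rw [← (show z = a from h)]; exact hz)⟩
    · intro h
      exact ha (by rw [← (show u = a from h)]; exact p.start_mem_support)

/-- A path inside a connected set. -/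
theorem exists_path {S : Set V} (hS : (H.induce S).Connected) {u v : V} (hu : u ∈ S) (hv : v ∈ S) :
    ∃ p : H.Walk u v, p.IsPath ∧ ∀ x ∈ p.support, x ∈ S := by
  classical
  obtain ⟨p⟩ := hS.preconnected ⟨u, hu⟩ ⟨v, hv⟩
  have h1 : ∀ x ∈ (p.map (Embedding.induce S).toHom).support, x ∈ S := by
    intro x hx
    rw [Walk.support_map, List.mem_map] at hx
    obtain ⟨y, _, rfl⟩ := hx
    exact y.2
  exact ⟨(p.map (Embedding.induce S).toHom).bypass, Walk.bypass_isPath _, fun x hx =>
    h1 x (Walk.support_bypass_subset_support _ hx)⟩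

/-- Concatenation of paths which share only one vertex. -/
theorem append_path {u v w : V} (p : H.Walk u v) (q : H.Walk v w) (hp : p.IsPath) (hq : q.IsPath)
    (h : ∀ x ∈ p.support, x ∈ q.support → x = v) : (p.append q).IsPath := by
  rw [Walk.isPath_def, Walk.support_append, List.nodup_append']
  refine ⟨hp.support_nodup, hq.support_nodup.tail, ?_⟩
  intro x hx hx'
  have h1 := h x hx (List.mem_of_mem_tail hx')
  subst h1
  have h2 := hq.support_nodup
  rw [← Walk.cons_tail_support] at h2
  exact (List.nodup_cons.1 h2).1 hx'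

/-- A walk from a point to a set gives a path which meets the set only at its end. -/
theorem first_hit (A : Set V) {u v : V} (p : H.Walk u v) (hv : v ∈ A) :
    ∃ (c : V) (q : H.Walk u c), q.IsPath ∧ c ∈ A ∧ (∀ x ∈ q.support, x ∈ A → x = c) ∧
      ∀ x ∈ q.support, x ∈ p.support := by
  classical
  suffices h : ∃ (c : V) (q : H.Walk u c), c ∈ A ∧ (∀ x ∈ q.support, x ∈ A → x = c) ∧
      ∀ x ∈ q.support, x ∈ p.support by
    obtain ⟨c, q, h1, h2, h3⟩ := h
    exact ⟨c, q.bypass, q.bypass_isPath, h1, fun x hx => h2 x (q.support_bypass_subset_support hx),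
      fun x hx => h3 x (q.support_bypass_subset_support hx)⟩
  induction p with
  | nil =>
    refine ⟨_, Walk.nil, hv, ?_, ?_⟩ <;> simp
  | @cons a b c hab p ih =>
    by_cases ha : a ∈ A
    · refine ⟨a, Walk.nil, ha, ?_, ?_⟩ <;> simp
    · obtain ⟨d, q, h1, h2, h3⟩ := ih hv
      refine ⟨d, Walk.cons hab q, h1, ?_, ?_⟩
      · intro x hx hxA
        rw [Walk.support_cons, List.mem_cons] at hx
        rcases hx with rfl | hx
        · exact absurd hxA ha
        · exact h2 x hx hxA
      · intro x hx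
        rw [Walk.support_cons, List.mem_cons] at hx
        rw [Walk.support_cons, List.mem_cons]
        rcases hx with rfl | hx
        · exact Or.inl rfl
        · exact Or.inr (h3 x hx)

/-- Maximal sets without cut vertices. -/
def MxTwo (H : SimpleGraph V) (S : Set V) : Prop := Two H S ∧ ∀ T, Two H T → S ⊆ T → T ⊆ S

/-- `A` is connected and contains every set without cut vertices that has two points in `A`. -/
structure Cl (H : SimpleGraph V) (A : Set V) : Prop where
  conn : (H.induce A).Connected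
  cl : ∀ S, Two H S → ∀ x y, x ≠ y → x ∈ S → y ∈ S → x ∈ A → y ∈ A → S ⊆ A

theorem MxTwo.cl {S : Set V} (hS : MxTwo H S) : Cl H S := by
  refine ⟨hS.1.conn, ?_⟩
  intro T hT x y hxy h1 h2 h3 h4
  exact Set.subset_union_right.trans
    (hS.2 _ (hS.1.union hT hxy h3 h1 h4 h2) Set.subset_union_left)

/-- Separation: every walk from a block `T` with one vertex `y` in the closed set `A` to `A`
passes through `y`. -/
theorem sep {A T : Set V} (hA : (H.induce A).Connected) (hT : MxTwo H T) {y : V} (hyA : y ∈ A)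
    (hyT : y ∈ T) (hAT : ∀ x ∈ A, x ∈ T → x = y) {v s : V} (hv : v ∈ T) (hs : s ∈ A)
    (p : H.Walk v s) : y ∈ p.support := by
  by_contra hy
  obtain ⟨c, q, hq, hc, h1, h2⟩ := first_hit A p hs
  have hcy : c ≠ y := by
    rintro rfl
    exact hy (h2 c q.end_mem_support)
  have hvy : v ≠ y := by
    rintro rfl
    exact hy p.start_mem_support
  obtain ⟨r, hr, hrA⟩ := exists_path hA hc hyA
  have hp : (q.append r).IsPath := append_path q r hq hr fun x hx hx' => h1 x hx (hrA x hx')
  have h3 := hT.2 _ (hT.1.ear hv hyT hvy _ hp) Set.subset_union_left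
  have h4 : c ∈ T := h3 (Or.inr (by
    show c ∈ (q.append r).support
    rw [Walk.mem_support_append_iff]
    exact Or.inl q.end_mem_support))
  exact hcy (hAT c hc h4)

/-- The union of a closed set and a block with one common vertex is closed. -/
theorem Cl.step {A T : Set V} (hA : Cl H A) (hT : MxTwo H T) {y : V} (hyA : y ∈ A)
    (hyT : y ∈ T) (hAT : ∀ x ∈ A, x ∈ T → x = y) : Cl H (A ∪ T) := by
  refine ⟨induce_union_connected hA.conn.preconnected hT.1.conn.preconnected ⟨y, hyA, hyT⟩, ?_⟩
  -- the mixed case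
  have mix : ∀ S, Two H S → ∀ x v, x ∈ S → v ∈ S → x ∈ A → v ∈ T → x ∉ T → v ∉ A → False := by
    intro S hS x v hxS hvS hxA hvT hxT hvA
    obtain ⟨p, hp, hpT⟩ := exists_path hT.1.conn hvT hyT
    obtain ⟨q, hq, hqA⟩ := exists_path hA.conn hyA hxA
    have hw : (p.append q).IsPath := append_path p q hp hq fun z hz hz' =>
      hAT z (hqA z hz') (hpT z hz)
    have hvx : v ≠ x := by
      rintro rfl
      exact hvA hxA
    have h1 := hS.ear hvS hxS hvx _ hw
    have hvy : v ≠ y := by
      rintro rfl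
      exact hvA hyA
    have h2 := hT.cl.cl _ h1 v y hvy (Or.inl hvS) (Or.inr (by
      show y ∈ (p.append q).support
      rw [Walk.mem_support_append_iff]
      exact Or.inl p.end_mem_support)) hvT hyT
    exact hxT (h2 (Or.inl hxS))
  intro S hS x v hxv hxS hvS hx hv
  by_cases hxA : x ∈ A
  · by_cases hvA : v ∈ A
    · exact (hA.cl S hS x v hxv hxS hvS hxA hvA).trans Set.subset_union_left
    · have hvT : v ∈ T := hv.resolve_left hvA
      by_cases hxT : x ∈ T
      · exact (hT.cl.cl S hS x v hxv hxS hvS hxT hvT).trans Set.subset_union_right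
      · exact (mix S hS x v hxS hvS hxA hvT hxT hvA).elim
  · have hxT : x ∈ T := hx.resolve_left hxA
    by_cases hvT : v ∈ T
    · exact (hT.cl.cl S hS x v hxv hxS hvS hxT hvT).trans Set.subset_union_right
    · have hvA : v ∈ A := hv.resolve_right hvT
      exact (mix S hS v x hvS hxS hvA hxT hvT hxA).elim

/-- Every set without cut vertices is contained in a maximal one. -/
theorem exists_mxTwo [Finite V] {S : Set V} (hS : Two H S) : ∃ T, MxTwo H T ∧ S ⊆ T := by
  obtain ⟨T, hT, hm⟩ := (Set.toFinite {T : Set V | Two H T ∧ S ⊆ T}).exists_maximal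
    ⟨S, hS, subset_rfl⟩
  refine ⟨T, ⟨hT.1, ?_⟩, hT.2⟩
  intro T' hT' h
  exact hm ⟨hT', hT.2.trans h⟩ h

/-- One more block. -/
theorem Cl.next [Finite V] {A : Set V} (hA : Cl H A) (hH : H.Connected) (hne : A ≠ Set.univ) :
    ∃ (y z : V) (T : Set V), y ∈ A ∧ z ∉ A ∧ H.Adj y z ∧ MxTwo H T ∧ y ∈ T ∧ z ∈ T ∧
      ∀ x ∈ A, x ∈ T → x = y := by
  obtain ⟨⟨s, hs⟩⟩ := hA.conn.nonempty
  obtain ⟨t, ht⟩ := (Set.ne_univ_iff_exists_notMem A).1 hne
  have h1 : ∃ y z, y ∈ A ∧ z ∉ A ∧ H.Adj y z := by
    by_contra hcon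
    push Not at hcon
    obtain ⟨p⟩ := hH.preconnected s t
    have : ∀ {a b : V} (p : H.Walk a b), a ∈ A → b ∈ A := by
      intro a b p
      induction p with
      | nil => exact id
      | cons h p ih =>
        intro ha
        exact ih (by_contra fun hb => hcon _ _ ha hb h)
    exact ht (this p hs)
  obtain ⟨y, z, hy, hz, hyz⟩ := h1
  obtain ⟨T, hT, hsub⟩ := exists_mxTwo (two_adj hyz)
  have hyT : y ∈ T := hsub (by simp)
  have hzT : z ∈ T := hsub (by simp)
  refine ⟨y, z, T, hy, hz, hyz, hT, hyT, hzT, ?_⟩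
  intro x hx hxT
  by_contra hxy
  exact hz (hA.cl T hT.1 x y hxy hxT hyT hx hy hzT)

/-- A walk in a smaller induced graph. -/
theorem map_walk {S S' : Set V} (h : S' ⊆ S) {u v : S'} (p : (H.induce S').Walk u v) :
    ∃ q : (H.induce S).Walk ⟨u, h u.2⟩ ⟨v, h v.2⟩, ∀ c ∈ q.support, (c : V) ∈ S' := by
  induction p with
  | @nil u =>
    refine ⟨Walk.nil, ?_⟩
    intro c hc
    rw [Walk.support_nil, List.mem_singleton] at hc
    rw [hc]
    exact u.2
  | @cons a b c hab p ih =>
    obtain ⟨q, hq⟩ := ih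
    refine ⟨Walk.cons (show (H.induce S).Adj ⟨a, h a.2⟩ ⟨b, h b.2⟩ from hab) q, ?_⟩
    intro d hd
    rw [Walk.support_cons, List.mem_cons] at hd
    rcases hd with rfl | hd
    · exact a.2
    · exact hq d hd

/-- A set without cut vertices with at least three vertices contains a cycle. -/
theorem Two.not_acyclic {S W : Set V} (hS : Two H S) (h3 : ∃ x ∈ S, ∃ y ∈ S, ∃ z ∈ S, x ≠ y ∧
    x ≠ z ∧ y ≠ z) (hSW : S ⊆ W) : ¬ (H.induce W).IsAcyclic := by
  intro hac
  have hac' : (H.induce S).IsAcyclic :=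
    hac.comap (induceHomOfLE H hSW).toHom (induceHomOfLE H hSW).injective
  rw [isAcyclic_iff_forall_adj_isBridge] at hac'
  obtain ⟨x, hx, y, hy, z, hz, hxy, hxz, hyz⟩ := h3
  -- an edge x w in S
  obtain ⟨w, hw, hxw⟩ : ∃ w ∈ S, H.Adj x w := by
    obtain ⟨p, hp, hpS⟩ := exists_path hS.conn hx hy
    cases p with
    | nil => exact absurd rfl hxy
    | cons h q => exact ⟨_, hpS _ (by simp), h⟩
  obtain ⟨t, ht, htx, htw⟩ : ∃ t ∈ S, t ≠ x ∧ t ≠ w := by
    by_cases h : y = w
    · exact ⟨z, hz, Ne.symm hxz, fun h' => hyz (h.trans h'.symm)⟩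
    · exact ⟨y, hy, Ne.symm hxy, h⟩
  have hbr := hac' (show (H.induce S).Adj ⟨x, hx⟩ ⟨w, hw⟩ from hxw)
  rw [isBridge_iff_forall_walk_mem_edges] at hbr
  -- a walk x - t avoiding w, a walk t - w avoiding x
  have key : ∀ a ∈ S, ∀ (u v : V) (hu : u ∈ S) (hv : v ∈ S), u ≠ a → v ≠ a →
      ∃ p : (H.induce S).Walk ⟨u, hu⟩ ⟨v, hv⟩, ∀ c ∈ p.support, (c : V) ≠ a := by
    intro a ha u v hu hv hua hva
    have hua' : u ∈ S \ {a} := ⟨hu, fun h => hua h⟩
    have hva' : v ∈ S \ {a} := ⟨hv, fun h => hva h⟩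
    obtain ⟨p⟩ := (hS.cut a ha).preconnected ⟨u, hua'⟩ ⟨v, hva'⟩
    obtain ⟨q, hq⟩ := map_walk (H := H) (show S \ {a} ⊆ S from Set.sdiff_subset) p
    exact ⟨q, fun c hc h => (hq c hc).2 h⟩
  obtain ⟨p, hp⟩ := key w hw x t hx ht hxw.ne htw
  obtain ⟨q, hq⟩ := key x hx t w ht hw htx hxw.ne.symm
  have h1 := hbr (p.append q)
  rw [Walk.edges_append, List.mem_append] at h1
  rcases h1 with h1 | h1
  · exact hp _ (Walk.snd_mem_support_of_mem_edges _ h1) rfl
  · exact hq _ (Walk.fst_mem_support_of_mem_edges _ h1) rfl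

/-- A graph with a cycle has a set without cut vertices with at least three vertices. -/
theorem exists_two_of_not_acyclic (h : ¬ H.IsAcyclic) : ∃ S, Two H S ∧
    ∃ x ∈ S, ∃ y ∈ S, ∃ z ∈ S, x ≠ y ∧ x ≠ z ∧ y ≠ z := by
  classical
  rw [isAcyclic_iff_forall_adj_isBridge] at h
  push Not at h
  obtain ⟨u, v, huv, hb⟩ := h
  rw [isBridge_iff_forall_walk_mem_edges] at hb
  push Not at hb
  obtain ⟨p, hp⟩ := hb
  have hq : s(u, v) ∉ p.bypass.edges := fun h => hp (p.edges_bypass_subset_edges h)
  have hpath := p.bypass_isPath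
  refine ⟨_, (two_adj huv).ear (by simp) (by simp) huv.ne _ hpath, u, Or.inl (by simp), v,
    Or.inl (by simp), ?_⟩
  revert hq hpath
  generalize p.bypass = q
  intro hq hpath
  cases q with
  | nil => exact absurd huv (H.loopless.irrefl _)
  | @cons _ b _ hub r =>
    have hbv : b ≠ v := by
      rintro rfl
      exact hq (by simp)
    have hbu : u ≠ b := hub.ne
    exact ⟨b, Or.inr (by simp), huv.ne, hbu, hbv.symm⟩

end MP3240L
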