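import Pool.Agent.Lib.MP_3240be_co.H62.Defs
import Pool.Agent.Lib.MP_3240be_co.H34.Two

set_option autoImplicit false

/-!
# MP_3240be_co, H34: the crisp form of Theorem T2 (helper34): definitions and transport
-/

namespace MP3240L

open SimpleGraph Finset
open MP3240Q (Sub SG)
open MP3240G

/-- `S` has at least three vertices and induces a connected graph without cut vertex. -/
structure Blk {n : ℕ} (H : SimpleGraph (Fin n)) (S : Finset (Fin n)) : Prop where
  three : 3 ≤ S.card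
  conn : (H.induce {x | x ∈ S}).Connected
  cut : ∀ a ∈ S, (H.induce {x | x ∈ S ∧ x ≠ a}).Connected

/-- `S` is (the vertex set of) a block with at least three vertices. -/
def IsBlock {n : ℕ} (H : SimpleGraph (Fin n)) (S : Finset (Fin n)) : Prop :=
  Blk H S ∧ ∀ S', Blk H S' → S ⊆ S' → S' ⊆ S

/-- The number of vertices of `S` in the smaller colour class. -/
def small {n : ℕ} (κ : Fin n → Bool) (S : Finset (Fin n)) : ℕ :=
  min (S.filter (fun v => κ v = true)).card (S.filter (fun v => κ v = false)).card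

/-- A block whose smaller colour class has the largest size. -/
def Large {n : ℕ} (H : SimpleGraph (Fin n)) (κ : Fin n → Bool) (S : Finset (Fin n)) : Prop :=
  IsBlock H S ∧ ∀ S', IsBlock H S' → small κ S' ≤ small κ S

/-- Only a tree hangs at `a`: the vertices `v` such that all walks from `v` to `S` pass through
`a` induce a graph without cycles. -/
def TreeAt {n : ℕ} (H : SimpleGraph (Fin n)) (S : Finset (Fin n)) (a : Fin n) : Prop :=
  (H.induce {v | ∀ s ∈ S, ∀ p : H.Walk v s, a ∈ p.support}).IsAcyclic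

/-- `H[S]` stays connected after the deletion of two vertices of different colours. -/
def CrossS {n : ℕ} (H : SimpleGraph (Fin n)) (κ : Fin n → Bool) (S : Finset (Fin n)) : Prop :=
  ∀ a ∈ S, ∀ b ∈ S, κ a ≠ κ b → (H.induce {x | x ∈ S ∧ x ≠ a ∧ x ≠ b}).Connected

/-- A large block which is not a proper subgraph of another large block. -/
def Top {n : ℕ} (H : SimpleGraph (Fin n)) (κ : Fin n → Bool) (S : Finset (Fin n)) : Prop :=
  Large H κ S ∧ ∀ S', Large H κ S' → Sub (H.induce {x | x ∈ S}) (H.induce {x | x ∈ S'}) →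
    Sub (H.induce {x | x ∈ S'}) (H.induce {x | x ∈ S})

/-! ## Transport to `Fin` -/

/-- The order embedding of the points of `S`. -/
noncomputable def emb {n : ℕ} (S : Finset (Fin n)) : Fin S.card ↪ Fin n :=
  (S.orderEmbOfFin rfl).toEmbedding

/-- The graph `H[S]` on `Fin`. -/
noncomputable def gr {n : ℕ} (H : SimpleGraph (Fin n)) (S : Finset (Fin n)) : SG :=
  ⟨S.card, H.comap (emb S)⟩

theorem emb_mem {n : ℕ} (S : Finset (Fin n)) (i : Fin S.card) : emb S i ∈ S :=
  S.orderEmbOfFin_mem rfl i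

theorem emb_surj {n : ℕ} {S : Finset (Fin n)} {x : Fin n} (hx : x ∈ S) : ∃ i, emb S i = x := by
  have h := S.range_orderEmbOfFin rfl
  have h1 : x ∈ Set.range (S.orderEmbOfFin rfl) := by
    rw [h]
    exact hx
  exact h1

theorem range_emb {n : ℕ} (S : Finset (Fin n)) : Set.range (emb S) = (S : Set (Fin n)) :=
  S.range_orderEmbOfFin rfl

theorem card_emb {n : ℕ} (κ : Fin n → Bool) (S : Finset (Fin n)) (c : Bool) :
    (univ.filter (fun i => κ (emb S i) = c)).card = (S.filter (fun v => κ v = c)).card := by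
  classical
  refine Finset.card_bij (fun i _ => emb S i) ?_ ?_ ?_
  · intro i hi
    rw [Finset.mem_filter] at hi ⊢
    exact ⟨emb_mem S i, hi.2⟩
  · intro i _ j _ h
    exact (emb S).injective h
  · intro v hv
    rw [Finset.mem_filter] at hv
    obtain ⟨i, hi⟩ := emb_surj hv.1
    exact ⟨i, by rw [Finset.mem_filter]; exact ⟨Finset.mem_univ _, by rw [hi]; exact hv.2⟩, hi⟩

theorem conn_comap {m n : ℕ} (H : SimpleGraph (Fin n)) (e : Fin m ↪ Fin n) (Q : Set (Fin n))
    (hQ : ∀ q ∈ Q, ∃ i, e i = q) (P : Set (Fin m)) (hP : ∀ i, i ∈ P ↔ e i ∈ Q)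
    (h : (H.induce Q).Connected) : ((H.comap e).induce P).Connected := by
  have hQ' : ∀ q : Q, ∃ i, e i = q := fun q => hQ q q.2
  choose g hg using hQ'
  have hg' : ∀ q : Q, g q ∈ P := fun q => (hP _).2 (by rw [hg q]; exact q.2)
  refine h.map (⟨fun q => ⟨g q, hg' q⟩, ?_⟩ : H.induce Q →g (H.comap e).induce P) ?_
  · intro a b hab
    show H.Adj (e (g a)) (e (g b))
    rw [hg a, hg b]
    exact hab
  · rintro ⟨i, hi⟩
    refine ⟨⟨e i, (hP i).1 hi⟩, ?_⟩
    exact Subtype.ext (e.injective (hg ⟨e i, (hP i).1 hi⟩))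

theorem conn_of_comap {m n : ℕ} (H : SimpleGraph (Fin n)) (e : Fin m ↪ Fin n) (Q : Set (Fin n))
    (hQ : ∀ q ∈ Q, ∃ i, e i = q) (P : Set (Fin m)) (hP : ∀ i, i ∈ P ↔ e i ∈ Q)
    (h : ((H.comap e).induce P).Connected) : (H.induce Q).Connected := by
  refine h.map (⟨fun i => ⟨e i, (hP i).1 i.2⟩, ?_⟩ : (H.comap e).induce P →g H.induce Q) ?_
  · intro a b hab
    exact hab
  · rintro ⟨q, hq⟩
    obtain ⟨i, rfl⟩ := hQ q hq
    exact ⟨⟨i, (hP i).2 hq⟩, rfl⟩

theorem twoCn_gr {n : ℕ} {H : SimpleGraph (Fin n)} {S : Finset (Fin n)} (hS : Blk H S) :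
    TwoCn (gr H S).2 := by
  refine ⟨hS.three, ?_, ?_⟩
  · have h1 := conn_comap H (emb S) {x | x ∈ S} (fun q hq => emb_surj hq) Set.univ
      (fun i => ⟨fun _ => emb_mem S i, fun _ => Set.mem_univ _⟩) hS.conn
    exact h1.map (Embedding.induce _).toHom fun i => ⟨⟨i, Set.mem_univ _⟩, rfl⟩
  · intro a
    refine conn_comap H (emb S) {x | x ∈ S ∧ x ≠ emb S a} (fun q hq => emb_surj hq.1) _ ?_
      (hS.cut _ (emb_mem S a))
    intro i
    exact ⟨fun h => ⟨emb_mem S i, fun h' => h ((emb S).injective h')⟩,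
      fun h h' => h.2 (congrArg _ h')⟩

/-- A block has two vertices in both classes. -/
theorem small_two {n : ℕ} {H : SimpleGraph (Fin n)} {κ : Fin n → Bool}
    (hκ : ∀ i j, H.Adj i j → κ i ≠ κ j) {S : Finset (Fin n)} (hS : Blk H S) (c : Bool) :
    2 ≤ (S.filter (fun v => κ v = c)).card := by
  classical
  by_contra hlt
  push Not at hlt
  -- a vertex `a` such that all other vertices of `S` have the other colour
  obtain ⟨a, haS, ha⟩ : ∃ a ∈ S, ∀ x ∈ S, x ≠ a → κ x ≠ c := by
    rcases Nat.lt_or_ge 0 (S.filter (fun v => κ v = c)).card with h | h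
    · have h1 : (S.filter (fun v => κ v = c)).card = 1 := by omega
      obtain ⟨a, ha⟩ := Finset.card_eq_one.1 h1
      have ha1 : a ∈ S.filter (fun v => κ v = c) := by rw [ha]; simp
      refine ⟨a, (Finset.mem_filter.1 ha1).1, ?_⟩
      intro x hx hxa hc
      have h2 : x ∈ S.filter (fun v => κ v = c) := Finset.mem_filter.2 ⟨hx, hc⟩
      rw [ha, Finset.mem_singleton] at h2
      exact hxa h2
    · have h1 : (S.filter (fun v => κ v = c)) = ∅ := by
        rw [← Finset.card_eq_zero]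
        omega
      obtain ⟨a, ha⟩ : S.Nonempty := by
        rw [← Finset.card_pos]
        have := hS.three
        omega
      refine ⟨a, ha, ?_⟩
      intro x hx _ hc
      have h2 : x ∈ S.filter (fun v => κ v = c) := Finset.mem_filter.2 ⟨hx, hc⟩
      rw [h1] at h2
      simp at h2
  -- two other vertices
  have h3 := hS.three
  obtain ⟨x, hx, y, hy, hxy⟩ : ∃ x ∈ S.erase a, ∃ y ∈ S.erase a, x ≠ y := by
    have : 1 < (S.erase a).card := by
      rw [Finset.card_erase_of_mem haS]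
      omega
    exact Finset.one_lt_card.1 this
  rw [Finset.mem_erase] at hx hy
  obtain ⟨p, _, hp⟩ := exists_path (hS.cut a haS) (u := x) (v := y) ⟨hx.2, hx.1⟩ ⟨hy.2, hy.1⟩
  cases p with
  | nil => exact hxy rfl
  | @cons _ b _ hb q =>
    have h1 : b ∈ {x | x ∈ S ∧ x ≠ a} := hp b (by simp)
    have h2 := ha x hx.2 hx.1
    have h4 := ha b h1.1 h1.2
    have h5 := hκ _ _ hb
    revert h2 h4 h5
    cases κ x <;> cases κ b <;> cases c <;> simp

theorem blk_two {n : ℕ} {H : SimpleGraph (Fin n)} {S : Finset (Fin n)} (hS : Blk H S) :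
    Two H (S : Set (Fin n)) := by
  classical
  refine ⟨?_, hS.conn, ?_⟩
  · obtain ⟨x, hx, y, hy, hxy⟩ := Finset.one_lt_card.1 (lt_of_lt_of_le (by norm_num) hS.three)
    exact ⟨x, hx, y, hy, hxy⟩
  · intro a ha
    have : ((S : Set (Fin n)) \ {a}) = {x | x ∈ S ∧ x ≠ a} := by
      ext x
      simp
    rw [this]
    exact hS.cut a ha

theorem two_blk {n : ℕ} {H : SimpleGraph (Fin n)} {S : Finset (Fin n)}
    (hS : Two H (S : Set (Fin n))) (h3 : 3 ≤ S.card) : Blk H S := by
  refine ⟨h3, hS.conn, ?_⟩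
  intro a ha
  have : ((S : Set (Fin n)) \ {a}) = {x | x ∈ S ∧ x ≠ a} := by
    ext x
    simp
  rw [← this]
  exact hS.cut a ha

theorem isBlock_mx {n : ℕ} {H : SimpleGraph (Fin n)} {S : Finset (Fin n)} (hS : IsBlock H S) :
    MxTwo H (S : Set (Fin n)) := by
  classical
  refine ⟨blk_two hS.1, ?_⟩
  intro T hT hST
  have h1 : (T.toFinset : Set (Fin n)) = T := Set.coe_toFinset T
  have h2 : S ⊆ T.toFinset := by
    intro x hx
    rw [Set.mem_toFinset]
    exact hST hx
  have h3 : Blk H T.toFinset := two_blk (by rw [h1]; exact hT)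
    (hS.1.three.trans (Finset.card_le_card h2))
  intro x hx
  exact hS.2 _ h3 h2 (by rw [Set.mem_toFinset]; exact hx)

theorem mx_isBlock {n : ℕ} {H : SimpleGraph (Fin n)} {S : Finset (Fin n)}
    (hS : MxTwo H (S : Set (Fin n))) (h3 : 3 ≤ S.card) : IsBlock H S := by
  refine ⟨two_blk hS.1 h3, ?_⟩
  intro S' hS' h x hx
  exact hS.2 _ (blk_two hS') (by exact_mod_cast h) hx

theorem three_pts {n : ℕ} {S : Finset (Fin n)} (h3 : 3 ≤ S.card) :
    ∃ x ∈ S, ∃ y ∈ S, ∃ z ∈ S, x ≠ y ∧ x ≠ z ∧ y ≠ z := by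
  classical
  obtain ⟨x, hx, y, hy, z, hz, h⟩ := Finset.two_lt_card.1 (show 2 < S.card by omega)
  exact ⟨x, hx, y, hy, z, hz, h⟩

theorem sub_gr {n : ℕ} {H : SimpleGraph (Fin n)} {S S' : Finset (Fin n)} :
    Sub (gr H S).2 (gr H S').2 ↔
      Sub (H.induce {x | x ∈ S}) (H.induce {x | x ∈ S'}) := by
  classical
  constructor
  · rintro ⟨f, hf, hadj⟩
    have hs : ∀ x : {x | x ∈ S}, ∃ i, emb S i = x := fun x => emb_surj x.2
    choose g hg using hs
    refine ⟨fun x => ⟨emb S' (f (g x)), emb_mem _ _⟩, ?_, ?_⟩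
    · intro x y hxy
      have h1 := hf ((emb S').injective (Subtype.ext_iff.1 hxy))
      have h2 : (x : Fin n) = y := by rw [← hg x, ← hg y, h1]
      exact Subtype.ext h2
    · intro x y hxy
      refine hadj (g x) (g y) ?_
      show H.Adj (emb S (g x)) (emb S (g y))
      rw [hg, hg]
      exact hxy
  · rintro ⟨f, hf, hadj⟩
    have hs : ∀ x : {x | x ∈ S'}, ∃ i, emb S' i = x := fun x => emb_surj x.2
    choose g hg using hs
    refine ⟨fun i => g (f ⟨emb S i, emb_mem S i⟩), ?_, ?_⟩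
    · intro i j hij
      have h1 := congrArg (emb S') hij
      simp only [hg] at h1
      have h2 := hf (Subtype.ext h1)
      exact (emb S).injective (Subtype.ext_iff.1 h2)
    · intro i j hij
      have h1 := hadj ⟨emb S i, emb_mem S i⟩ ⟨emb S j, emb_mem S j⟩ hij
      show H.Adj (emb S' (g _)) (emb S' (g _))
      rw [hg, hg]
      exact h1

theorem cross_gr {n : ℕ} {H : SimpleGraph (Fin n)} {κ : Fin n → Bool}
    (hκ : ∀ i j, H.Adj i j → κ i ≠ κ j) {S : Finset (Fin n)} (h : Cross (gr H S).2) :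
    CrossS H κ S := by
  intro a ha b hb hab
  obtain ⟨i, rfl⟩ := emb_surj ha
  obtain ⟨j, rfl⟩ := emb_surj hb
  refine conn_of_comap H (emb S) _ (fun q hq => emb_surj hq.1) {x | x ≠ i ∧ x ≠ j} ?_
    (h (fun i => κ (emb S i)) (fun i j hij => hκ _ _ hij) i j hab)
  intro k
  exact ⟨fun h => ⟨emb_mem S k, fun h' => h.1 ((emb S).injective h'),
    fun h' => h.2 ((emb S).injective h')⟩,
    fun h => ⟨fun h' => h.2.1 (congrArg _ h'), fun h' => h.2.2 (congrArg _ h')⟩⟩

end MP3240L
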