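import Pool.Agent.Lib.MP_3240be_co.H34.Blk

set_option autoImplicit false

/-!
# MP_3240be_co, H34: the crisp form of Theorem T2 (helper34)
-/

namespace MP3240L

open SimpleGraph Finset
open MP3240Q (Sub SG)
open MP3240G
open Pool.Agent.Lib.MP_3240be_co.H36.Chrom (ArrowsT)

theorem large_iff {n h : ℕ} {H : SimpleGraph (Fin n)} {κ : Fin n → Bool} {S1 : Finset (Fin n)}
    (h1 : Large H κ S1) (hh : small κ S1 = h + 1) (S : Finset (Fin n)) :
    Large H κ S ↔ Bg H κ h S := by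
  constructor
  · intro hS
    refine ⟨hS.1, ?_⟩
    rw [← hh]
    exact le_antisymm (h1.2 S hS.1) (hS.2 S1 h1.1)
  · rintro ⟨hS, hs⟩
    refine ⟨hS, ?_⟩
    intro S' hS'
    rw [hs, ← hh]
    exact h1.2 S' hS'

theorem big_gr {n h : ℕ} {H : SimpleGraph (Fin n)} {κ : Fin n → Bool}
    (hκ : ∀ i j, H.Adj i j → κ i ≠ κ j) {S : Finset (Fin n)} (hS : Bg H κ h S) :
    Big h (gr H S) := by
  classical
  refine ⟨twoCn_gr hS.1.1, ?_⟩
  have hs := hS.2
  unfold small at hs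
  have ht := card_emb κ S true
  have hf := card_emb κ S false
  rcases le_total (S.filter (fun v => κ v = true)).card (S.filter (fun v => κ v = false)).card
    with h1 | h1
  · rw [min_eq_left h1] at hs
    exact ⟨fun i => κ (emb S i), fun i j hij => hκ _ _ hij, ht.trans hs,
      hs.ge.trans (h1.trans hf.ge)⟩
  · rw [min_eq_right h1] at hs
    have h2 : (univ.filter (fun i : Fin S.card => (!κ (emb S i)) = true)) =
        univ.filter (fun i => κ (emb S i) = false) := by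
      ext i
      simp
    have h3 : (univ.filter (fun i : Fin S.card => (!κ (emb S i)) = false)) =
        univ.filter (fun i => κ (emb S i) = true) := by
      ext i
      simp
    rw [← h2] at hf
    rw [← h3] at ht
    exact ⟨fun i => !κ (emb S i), fun i j hij h => hκ _ _ hij (by simpa using h),
      hf.trans hs, hs.ge.trans (h1.trans ht.ge)⟩

/-- A graph with a cycle has a block with at least three vertices. -/
theorem exists_block {n : ℕ} {H : SimpleGraph (Fin n)} (h : ¬ H.IsAcyclic) :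
    ∃ S, IsBlock H S := by
  classical
  obtain ⟨S, hS, x, hx, y, hy, z, hz, hxy, hxz, hyz⟩ := exists_two_of_not_acyclic h
  obtain ⟨T, hT, hST⟩ := exists_mxTwo hS
  have h1 : (T.toFinset : Set (Fin n)) = T := Set.coe_toFinset T
  refine ⟨T.toFinset, mx_isBlock (by rw [h1]; exact hT) ?_⟩
  have h2 : ({x, y, z} : Finset (Fin n)) ⊆ T.toFinset := by
    intro w hw
    simp only [Finset.mem_insert, Finset.mem_singleton] at hw
    rw [Set.mem_toFinset]
    rcases hw with rfl | rfl | rfl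
    · exact hST hx
    · exact hST hy
    · exact hST hz
  have h3 : ({x, y, z} : Finset (Fin n)).card = 3 := Finset.card_eq_three.2
    ⟨x, y, z, hxy, hxz, hyz, rfl⟩
  rw [← h3]
  exact Finset.card_le_card h2

theorem exists_large {n : ℕ} {H : SimpleGraph (Fin n)} (κ : Fin n → Bool)
    (h : ¬ H.IsAcyclic) : ∃ S, Large H κ S := by
  classical
  obtain ⟨S, hS⟩ := exists_block h
  obtain ⟨S1, h1, h2⟩ := Finset.exists_max_image (univ.filter (fun S => IsBlock H S)) (small κ)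
    ⟨S, Finset.mem_filter.2 ⟨Finset.mem_univ _, hS⟩⟩
  exact ⟨S1, (Finset.mem_filter.1 h1).2, fun S' hS' =>
    h2 S' (Finset.mem_filter.2 ⟨Finset.mem_univ _, hS'⟩)⟩

/-- The data of Theorem T2 for a connected bipartite graph with a cycle such that only trees hang
at the ends of some edge of every large block. -/
theorem crisp_data {n : ℕ} (H : SimpleGraph (Fin n)) (κ : Fin n → Bool) (hH : H.Connected)
    (hκ : ∀ i j, H.Adj i j → κ i ≠ κ j) (hcyc : ¬ H.IsAcyclic)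
    (hfree : ∀ S, Large H κ S →
      ∃ a b, a ∈ S ∧ b ∈ S ∧ H.Adj a b ∧ TreeAt H S a ∧ TreeAt H S b)
    (hcross : ∀ S S', Top H κ S → Top H κ S' → CrossS H κ S → CrossS H κ S' →
      Sub (H.induce {x | x ∈ S}) (H.induce {x | x ∈ S'})) :
    ∃ (h : ℕ) (fam : Set SG), 1 ≤ h ∧ fam.Finite ∧ fam.Nonempty ∧ (∀ x ∈ fam, Big h x) ∧
      (∀ x ∈ fam, Sub x.2 H) ∧
      (∀ x y, Mx fam x → Mx fam y → Cross x.2 → Cross y.2 → Sub x.2 y.2) ∧
      ∃ T A F, BTree0 h fam T A F ∧ InT H T A := by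
  classical
  obtain ⟨S1, h1⟩ := exists_large κ hcyc
  have h2 : 2 ≤ small κ S1 := by
    unfold small
    exact le_min (small_two hκ h1.1.1 true) (small_two hκ h1.1.1 false)
  obtain ⟨h, hh, hh1⟩ : ∃ h, small κ S1 = h + 1 ∧ 1 ≤ h :=
    ⟨small κ S1 - 1, by omega, by omega⟩
  have hiff := large_iff h1 hh
  refine ⟨h, fam H κ h, hh1, ?_, ⟨gr H S1, S1, (hiff S1).1 h1, rfl⟩, ?_, ?_, ?_, ?_⟩
  · refine (Set.finite_range (fun S : Finset (Fin n) => gr H S)).subset ?_
    rintro x ⟨S, _, rfl⟩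
    exact ⟨S, rfl⟩
  · rintro x ⟨S, hS, rfl⟩
    exact big_gr hκ hS
  · rintro x ⟨S, hS, rfl⟩
    exact ⟨emb S, (emb S).injective, fun i j hij => hij⟩
  · rintro x y ⟨⟨S, hS, rfl⟩, hx⟩ ⟨⟨S', hS', rfl⟩, hy⟩ hcx hcy
    rw [sub_gr]
    refine hcross S S' ⟨(hiff S).2 hS, ?_⟩ ⟨(hiff S').2 hS', ?_⟩ (cross_gr hκ hcx)
      (cross_gr hκ hcy)
    · intro S2 h3 h4
      rw [← sub_gr] at h4 ⊢
      exact hx _ ⟨S2, (hiff S2).1 h3, rfl⟩ h4
    · intro S2 h3 h4
      rw [← sub_gr] at h4 ⊢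
      exact hy _ ⟨S2, (hiff S2).1 h3, rfl⟩ h4
  · refine tree_exists hH hκ ?_ ((hiff S1).1 h1) fun S hS => hfree S ((hiff S).2 hS)
    intro S hS
    rw [← hh]
    exact h1.2 S hS

/-- The crisp form of Theorem T2. -/
theorem crisp (hM : MainStatement) {n n' : ℕ} (H : SimpleGraph (Fin n))
    (H' : SimpleGraph (Fin n')) (κ : Fin n → Bool) (hH : H.Connected)
    (hκ : ∀ i j, H.Adj i j → κ i ≠ κ j) (hcyc : ¬ H.IsAcyclic)
    (hfree : ∀ S, Large H κ S →
      ∃ a b, a ∈ S ∧ b ∈ S ∧ H.Adj a b ∧ TreeAt H S a ∧ TreeAt H S b)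
    (hcross : ∀ S S', Top H κ S → Top H κ S' → CrossS H κ S → CrossS H κ S' →
      Sub (H.induce {x | x ∈ S}) (H.induce {x | x ∈ S'}))
    (hc' : H'.Connected) (hs : Sub H H') (hns : ¬ Sub H' H) :
    ∃ (V : Type) (_ : Finite V) (F : SimpleGraph V), ArrowsT F H ∧ ¬ ArrowsT F H' := by
  obtain ⟨h, fam, a1, a2, a3, a4, a5, a6, a7⟩ := crisp_data H κ hH hκ hcyc hfree hcross
  exact hM h n n' fam H H' a1 a2 a3 a4 a5 a6 a7 hc' hs hns

end MP3240L
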