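import Pool.Agent.Lib.MP_3240be_co.H34.Defs

set_option autoImplicit false

/-!
# MP_3240be_co, H34: the block tree of a graph as a `BTree0` (row BLK, helper34)
-/

namespace MP3240L

open SimpleGraph Finset
open MP3240Q (Sub SG)
open MP3240G

/-- The blocks with `h + 1` vertices in the smaller class. -/
def Bg {n : ℕ} (H : SimpleGraph (Fin n)) (κ : Fin n → Bool) (h : ℕ) (S : Finset (Fin n)) : Prop :=
  IsBlock H S ∧ small κ S = h + 1

/-- The family of these blocks. -/
def fam {n : ℕ} (H : SimpleGraph (Fin n)) (κ : Fin n → Bool) (h : ℕ) : Set SG :=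
  {x | ∃ S, Bg H κ h S ∧ x = gr H S}

theorem tiny_gr {n h : ℕ} {H : SimpleGraph (Fin n)} {κ : Fin n → Bool}
    (hκ : ∀ i j, H.Adj i j → κ i ≠ κ j) {S : Finset (Fin n)} (hs : small κ S ≤ h) :
    Tiny h (gr H S) := by
  classical
  unfold small at hs
  rcases min_le_iff.1 hs with hs | hs
  · exact ⟨fun i => κ (emb S i), fun i j hij => hκ _ _ hij, (card_emb κ S true).le.trans hs⟩
  · have h1 := card_emb κ S false
    have h2 : (univ.filter (fun i : Fin S.card => (!κ (emb S i)) = true)) =
        univ.filter (fun i => κ (emb S i) = false) := by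
      ext i
      simp
    rw [← h2] at h1
    exact ⟨fun i => !κ (emb S i), fun i j hij h => hκ _ _ hij (by simpa using h), h1.le.trans hs⟩

/-- Gluing a block to a tree of blocks. -/
theorem attach {n h : ℕ} {H : SimpleGraph (Fin n)} {κ : Fin n → Bool}
    (hκ : ∀ i j, H.Adj i j → κ i ≠ κ j) {T : SimpleGraph ℕ} {A : Set (Fin n)} {F : Set ℕ}
    (ht : BTree0 h (fam H κ h) T (Fin.val '' A) F) {S : Finset (Fin n)} (hS : IsBlock H S)
    (hsm : small κ S ≤ h + 1) {y : Fin n} (hyS : y ∈ S) (hAS : ∀ x ∈ A, x ∈ S → x = y)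
    (hyF : (y : ℕ) ∈ F) (a b : Fin n)
    (hfree : Bg H κ h S → a ∈ S ∧ b ∈ S ∧ H.Adj a b ∧ y ≠ a ∧ y ≠ b) :
    ∃ (T' : SimpleGraph ℕ) (F' : Set ℕ),
      BTree0 h (fam H κ h) T' (Fin.val '' (A ∪ (S : Set (Fin n)))) F' ∧ T ≤ T' ∧ F ⊆ F' ∧
      (∀ x ∈ S, ∀ z ∈ S, H.Adj x z → T'.Adj x z) ∧
      ∀ v ∈ S, (Bg H κ h S → v ≠ a ∧ v ≠ b) → (v : ℕ) ∈ F' := by
  classical
  obtain ⟨r, hr⟩ := emb_surj hyS
  set f : Fin S.card ↪ ℕ := (emb S).trans Fin.valEmbedding with hf
  have hfv : ∀ i, f i = (emb S i : ℕ) := fun i => rfl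
  have hfr : f r ∈ F := by
    rw [hfv, hr]
    exact hyF
  have hnew : ∀ v, v ≠ r → f v ∉ Fin.val '' A := by
    rintro v hv ⟨x, hx, hxv⟩
    have h1 : x = emb S v := Fin.ext hxv
    have h2 := hAS x hx (by rw [h1]; exact emb_mem S v)
    refine hv ((emb S).injective ?_)
    rw [← h1, h2, hr]
  have hrange : Fin.val '' (A ∪ (S : Set (Fin n))) = Fin.val '' A ∪ Set.range f := by
    rw [Set.image_union]
    have h1 : Set.range f = Fin.val '' (S : Set (Fin n)) := by
      rw [← range_emb S, ← Set.range_comp]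
      rfl
    rw [h1]
  have hadj : ∀ x ∈ S, ∀ z ∈ S, H.Adj x z → (T ⊔ (gr H S).2.map f).Adj x z := by
    intro x hx z hz hxz
    obtain ⟨i, rfl⟩ := emb_surj hx
    obtain ⟨j, rfl⟩ := emb_surj hz
    exact Or.inr ⟨fun h => hxz.ne (Fin.ext h), i, j, hxz, rfl, rfl⟩
  by_cases hb : Bg H κ h S
  · obtain ⟨ha, hb', hab, hya, hyb⟩ := hfree hb
    obtain ⟨a', rfl⟩ := emb_surj ha
    obtain ⟨b', rfl⟩ := emb_surj hb'
    have h1 : BTree0 h (fam H κ h) (T ⊔ (gr H S).2.map f)
        (Fin.val '' (A ∪ (S : Set (Fin n)))) (F ∪ f '' {v | v ≠ a' ∧ v ≠ b'}) := by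
      rw [hrange]
      exact BTree0.big T (Fin.val '' A) F (gr H S) f r a' b' ht ⟨S, hb, rfl⟩ hfr hnew hab
        (by rintro rfl; exact hya hr.symm) (by rintro rfl; exact hyb hr.symm)
    refine ⟨_, _, h1, le_sup_left, Set.subset_union_left, hadj, ?_⟩
    intro v hv hvab
    obtain ⟨i, rfl⟩ := emb_surj hv
    obtain ⟨h2, h3⟩ := hvab hb
    exact Or.inr ⟨i, ⟨fun h => h2 (congrArg _ h), fun h => h3 (congrArg _ h)⟩, rfl⟩
  · have hs : small κ S ≤ h := by
      rcases Nat.lt_or_ge (small κ S) (h + 1) with h1 | h1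
      · omega
      · exact absurd ⟨hS, le_antisymm hsm h1⟩ hb
    have h1 : BTree0 h (fam H κ h) (T ⊔ (gr H S).2.map f)
        (Fin.val '' (A ∪ (S : Set (Fin n)))) (F ∪ Set.range f) := by
      rw [hrange]
      exact BTree0.tiny T (Fin.val '' A) F (gr H S) f r ht (tiny_gr hκ hs) hfr hnew
    refine ⟨_, _, h1, le_sup_left, Set.subset_union_left, hadj, ?_⟩
    intro v hv _
    obtain ⟨i, rfl⟩ := emb_surj hv
    exact Or.inr ⟨i, rfl⟩

/-- Row BLK. -/
theorem tree_exists {n h : ℕ} {H : SimpleGraph (Fin n)} {κ : Fin n → Bool} (hH : H.Connected)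
    (hκ : ∀ i j, H.Adj i j → κ i ≠ κ j) (hmax : ∀ S, IsBlock H S → small κ S ≤ h + 1)
    {S0 : Finset (Fin n)} (hS0 : Bg H κ h S0)
    (hfree : ∀ S, Bg H κ h S → ∃ a b, a ∈ S ∧ b ∈ S ∧ H.Adj a b ∧ TreeAt H S a ∧ TreeAt H S b) :
    ∃ T A F, BTree0 h (fam H κ h) T A F ∧ InT H T A := by
  classical
  obtain ⟨x0, _, y0, _, z0, _, _⟩ := three_pts hS0.1.1.three
  have hch : ∀ S : Finset (Fin n), ∃ ab : Fin n × Fin n, Bg H κ h S →
      ab.1 ∈ S ∧ ab.2 ∈ S ∧ H.Adj ab.1 ab.2 ∧ TreeAt H S ab.1 ∧ TreeAt H S ab.2 := by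
    intro S
    by_cases hS : Bg H κ h S
    · obtain ⟨a, b, h1⟩ := hfree S hS
      exact ⟨(a, b), fun _ => h1⟩
    · exact ⟨(x0, x0), fun h => absurd h hS⟩
  choose ab hab using hch
  -- the induction
  have key : ∀ (k : ℕ) (A : Set (Fin n)), Cl H A → (S0 : Set (Fin n)) ⊆ A →
      (∃ T F, BTree0 h (fam H κ h) T (Fin.val '' A) F ∧
        (∀ x ∈ A, ∀ y ∈ A, H.Adj x y → T.Adj x y) ∧
        ∀ v ∈ A, (∀ S, Bg H κ h S → (S : Set (Fin n)) ⊆ A → v ≠ (ab S).1 ∧ v ≠ (ab S).2) →
          (v : ℕ) ∈ F) → Aᶜ.ncard = k →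
      ∃ T A F, BTree0 h (fam H κ h) T A F ∧ InT H T A := by
    intro k
    induction k using Nat.strong_induction_on with
    | _ k ih =>
      rintro A hA hS0A ⟨T, F, ht, hadj, hF⟩ hk
      by_cases hne : A = Set.univ
      · refine ⟨T, Fin.val '' A, F, ht, Fin.val, Fin.val_injective, ?_, ?_⟩
        · intro x
          exact ⟨x, by rw [hne]; exact Set.mem_univ _, rfl⟩
        · intro x y hxy
          exact hadj x (by rw [hne]; exact Set.mem_univ _) y (by rw [hne]; exact Set.mem_univ _) hxy
      obtain ⟨y, z, B, hyA, hzA, hyz, hB, hyB, hzB, hAB⟩ := hA.next hH hne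
      have hcl := hA.step hB hyA hyB hAB
      have hlt : (A ∪ B)ᶜ.ncard < k := by
        rw [← hk]
        refine Set.ncard_lt_ncard ?_ (Set.toFinite _)
        refine ⟨Set.compl_subset_compl.2 Set.subset_union_left, ?_⟩
        intro hcon
        exact hcon hzA (Or.inr hzB)
      -- edges of H inside A ∪ B
      have hedge : ∀ x ∈ A ∪ B, ∀ w ∈ A ∪ B, H.Adj x w → (x ∈ A ∧ w ∈ A) ∨ (x ∈ B ∧ w ∈ B) := by
        have h1 : ∀ x ∈ A, ∀ w ∈ B, H.Adj x w → (x ∈ A ∧ w ∈ A) ∨ (x ∈ B ∧ w ∈ B) := by
          intro x hx w hw hxw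
          have h2 := sep hA.conn hB hyA hyB hAB hw hx (Walk.cons hxw.symm Walk.nil)
          rw [Walk.support_cons, Walk.support_nil, List.mem_cons, List.mem_singleton] at h2
          rcases h2 with h2 | h2
          · exact Or.inl ⟨hx, by rw [← h2]; exact hyA⟩
          · exact Or.inr ⟨by rw [← h2]; exact hyB, hw⟩
        intro x hx w hw hxw
        rcases hx with hx | hx
        · rcases hw with hw | hw
          · exact Or.inl ⟨hx, hw⟩
          · exact h1 x hx w hw hxw
        · rcases hw with hw | hw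
          · rcases h1 w hw x hx hxw.symm with h | h
            · exact Or.inl ⟨h.2, h.1⟩
            · exact Or.inr ⟨h.2, h.1⟩
          · exact Or.inr ⟨hx, hw⟩
      have hBS : (B.toFinset : Set (Fin n)) = B := Set.coe_toFinset B
      by_cases h3 : 3 ≤ B.toFinset.card
      · -- a block
        have hmx : MxTwo H (B.toFinset : Set (Fin n)) := by
          rw [hBS]
          exact hB
        have hblk := mx_isBlock hmx h3
        have h3' : ∃ x ∈ B, ∃ y ∈ B, ∃ z ∈ B, x ≠ y ∧ x ≠ z ∧ y ≠ z := by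
          obtain ⟨x, hx, y, hy, z, hz, h⟩ := three_pts h3
          rw [Set.mem_toFinset] at hx hy hz
          exact ⟨x, hx, y, hy, z, hz, h⟩
        have hyF : (y : ℕ) ∈ F := by
          refine hF y hyA ?_
          intro S hS hSA
          have h4 := hab S hS
          have h5 : ∀ c, TreeAt H S c → y ≠ c := by
            rintro c hc rfl
            refine hB.1.not_acyclic h3' ?_ hc
            intro v hv s hs p
            exact sep hA.conn hB hyA hyB hAB hv (hSA hs) p
          exact ⟨h5 _ h4.2.2.2.1, h5 _ h4.2.2.2.2⟩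
        have hfr : Bg H κ h B.toFinset → (ab B.toFinset).1 ∈ B.toFinset ∧
            (ab B.toFinset).2 ∈ B.toFinset ∧ H.Adj (ab B.toFinset).1 (ab B.toFinset).2 ∧
            y ≠ (ab B.toFinset).1 ∧ y ≠ (ab B.toFinset).2 := by
          intro hb
          have h4 := hab _ hb
          have h5 : ∀ c, TreeAt H B.toFinset c → y ≠ c := by
            rintro c hc rfl
            refine (blk_two hS0.1.1).not_acyclic (three_pts hS0.1.1.three) ?_ hc
            intro v hv s hs p
            have h6 := sep hA.conn hB hyA hyB hAB (by rw [Set.mem_toFinset] at hs; exact hs)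
              (hS0A hv) p.reverse
            rw [Walk.support_reverse, List.mem_reverse] at h6
            exact h6
          exact ⟨h4.1, h4.2.1, h4.2.2.1, h5 _ h4.2.2.2.1, h5 _ h4.2.2.2.2⟩
        obtain ⟨T', F', ht', hTT, hFF, hadj', hF'⟩ := attach hκ ht hblk (hmax _ hblk)
          (y := y) (by rw [Set.mem_toFinset]; exact hyB)
          (fun x hx hx' => hAB x hx (by rw [Set.mem_toFinset] at hx'; exact hx')) hyF _ _ hfr
        rw [hBS] at ht'
        refine ih _ hlt (A ∪ B) hcl (hS0A.trans Set.subset_union_left) ⟨T', F', ht', ?_, ?_⟩ rfl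
        · intro x hx w hw hxw
          rcases hedge x hx w hw hxw with h | h
          · exact hTT (hadj x h.1 w h.2 hxw)
          · exact hadj' x (by rw [Set.mem_toFinset]; exact h.1) w
              (by rw [Set.mem_toFinset]; exact h.2) hxw
        · intro v hv hvS
          rcases hv with hv | hv
          · exact hFF (hF v hv fun S hS hSA => hvS S hS (hSA.trans Set.subset_union_left))
          · refine hF' v (by rw [Set.mem_toFinset]; exact hv) fun hb => hvS _ hb ?_
            rw [hBS]
            exact Set.subset_union_right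
      · -- an edge
        have hyz' : y ≠ z := hyz.ne
        have hB2 : B = {y, z} := by
          have h4 : ({y, z} : Finset (Fin n)) ⊆ B.toFinset := by
            intro x hx
            rw [Finset.mem_insert, Finset.mem_singleton] at hx
            rw [Set.mem_toFinset]
            rcases hx with rfl | rfl
            · exact hyB
            · exact hzB
          have h5 : B.toFinset.card ≤ ({y, z} : Finset (Fin n)).card := by
            rw [Finset.card_pair hyz']
            omega
          have h6 := Finset.eq_of_subset_of_card_le h4 h5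
          rw [← hBS, ← h6]
          simp
        have h1 := BTree0.pendant T (Fin.val '' A) F y z ht ⟨y, hyA, rfl⟩ (by
          rintro ⟨x, hx, hxz⟩
          exact hzA (by rw [← Fin.ext hxz]; exact hx))
        have h2 : insert (z : ℕ) (Fin.val '' A) = Fin.val '' (A ∪ B) := by
          rw [hB2, ← Set.image_insert_eq]
          congr 1
          ext x
          simp only [Set.mem_insert_iff, Set.mem_union, Set.mem_singleton_iff]
          constructor
          · rintro (rfl | h)
            · exact Or.inr (Or.inr rfl)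
            · exact Or.inl h
          · rintro (h | rfl | rfl)
            · exact Or.inr h
            · exact Or.inr hyA
            · exact Or.inl rfl
        rw [h2] at h1
        have hedge' : ∀ x w : Fin n, x ∈ B → w ∈ B → H.Adj x w →
            (SimpleGraph.edge (y : ℕ) (z : ℕ)).Adj x w := by
          intro x w hx hw hxw
          have hne' : (y : ℕ) ≠ z := fun h => hyz' (Fin.ext h)
          rw [hB2] at hx hw
          rw [SimpleGraph.edge_adj]
          rcases hx with rfl | rfl <;> rcases hw with rfl | rfl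
          · exact absurd hxw (H.loopless.irrefl _)
          · exact ⟨Or.inl ⟨rfl, rfl⟩, hne'⟩
          · exact ⟨Or.inr ⟨rfl, rfl⟩, hne'.symm⟩
          · exact absurd hxw (H.loopless.irrefl _)
        refine ih _ hlt (A ∪ B) hcl (hS0A.trans Set.subset_union_left) ⟨_, _, h1, ?_, ?_⟩ rfl
        · intro x hx w hw hxw
          rcases hedge x hx w hw hxw with h | h
          · exact Or.inl (hadj x h.1 w h.2 hxw)
          · exact Or.inr (hedge' x w h.1 h.2 hxw)
        · intro v hv hvS
          have hvA : v ∈ A ∨ v = z := by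
            rcases hv with hv | hv
            · exact Or.inl hv
            · rw [hB2] at hv
              rcases hv with rfl | rfl
              · exact Or.inl hyA
              · exact Or.inr rfl
          rcases hvA with hv | rfl
          · exact Or.inr (hF v hv fun S hS hSA => hvS S hS (hSA.trans Set.subset_union_left))
          · exact Or.inl rfl
  -- the start
  obtain ⟨h1, h2, h3, h4, h5⟩ := hab S0 hS0
  obtain ⟨y, hy, hya, hyb⟩ : ∃ y ∈ S0, y ≠ (ab S0).1 ∧ y ≠ (ab S0).2 := by
    by_contra hcon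
    push Not at hcon
    have h6 : S0 ⊆ {(ab S0).1, (ab S0).2} := by
      intro x hx
      rw [Finset.mem_insert, Finset.mem_singleton]
      by_cases h : x = (ab S0).1
      · exact Or.inl h
      · exact Or.inr (hcon x hx h)
    have h7 := Finset.card_le_card h6
    have h8 := Finset.card_le_two (a := (ab S0).1) (b := (ab S0).2)
    have h9 := hS0.1.1.three
    omega
  have hst : BTree0 h (fam H κ h) ⊥ (Fin.val '' ({y} : Set (Fin n))) {(y : ℕ)} := by
    rw [Set.image_singleton]
    exact BTree0.start _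
  obtain ⟨T', F', ht', -, -, hadj', hF'⟩ := attach hκ hst hS0.1 (hmax _ hS0.1) (y := y) hy
    (fun x hx _ => hx) rfl (ab S0).1 (ab S0).2 (fun _ => ⟨h1, h2, h3, hya, hyb⟩)
  have hun : ({y} : Set (Fin n)) ∪ (S0 : Set (Fin n)) = (S0 : Set (Fin n)) := by
    refine Set.union_eq_self_of_subset_left ?_
    intro x hx
    rw [show x = y from hx]
    exact hy
  rw [hun] at ht'
  refine key _ (S0 : Set (Fin n)) (isBlock_mx hS0.1).cl subset_rfl ⟨T', F', ht', ?_, ?_⟩ rfl
  · intro x hx w hw hxw
    exact hadj' x hx w hw hxw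
  · intro v hv hvS
    exact hF' v hv fun hb => hvS S0 hb subset_rfl

end MP3240L
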