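import Pool.Agent.Lib.MP_3240be_co.H34.Two

set_option autoImplicit false

/-!
# MP_3240be_co, H34: connected unions of blocks and branches (helper34)
-/

namespace MP3240L

open SimpleGraph

variable {V : Type} {H : SimpleGraph V}

theorem conn_single (w : V) : (H.induce ({w} : Set V)).Connected := by
  have : Subsingleton ({w} : Set V) := inferInstance
  have : Nonempty ({w} : Set V) := ⟨⟨w, rfl⟩⟩
  exact ⟨Preconnected.of_subsingleton⟩

/-- One vertex. -/
theorem Cl.single (v : V) : Cl H {v} := by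
  refine ⟨conn_single v, ?_⟩
  intro S _ x y hxy _ _ hx hy
  rw [Set.mem_singleton_iff] at hx hy
  exact absurd (hx.trans hy.symm) hxy

/-- The whole vertex set. -/
theorem Cl.univ (hH : H.Connected) : Cl H Set.univ := by
  refine ⟨?_, fun S _ _ _ _ _ _ _ _ => Set.subset_univ S⟩
  exact hH.map (⟨fun v => ⟨v, Set.mem_univ v⟩, fun h => h⟩ : H →g H.induce Set.univ)
    fun v => ⟨v.1, rfl⟩

/-- Two closed sets with a common vertex. -/
theorem Cl.union {A B : Set V} (hA : Cl H A) (hB : Cl H B) (h : (A ∩ B).Nonempty) :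
    Cl H (A ∪ B) := by
  refine ⟨induce_union_connected hA.conn.preconnected hB.conn.preconnected h, ?_⟩
  obtain ⟨z, hzA, hzB⟩ := h
  -- the mixed case
  have mix : ∀ S, Two H S → ∀ x y, x ∈ S → y ∈ S → x ∈ A → y ∈ B → x ∉ B → y ∉ A → False := by
    intro S hS x y hxS hyS hxA hyB hxB hyA
    obtain ⟨p, hp, hpA⟩ := exists_path hA.conn hxA hzA
    obtain ⟨c, q, hq, hc, h1, h2⟩ := first_hit B p hzB
    have hcA : c ∈ A := hpA c (h2 c q.end_mem_support)
    obtain ⟨r, hr, hrB⟩ := exists_path hB.conn hc hyB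
    have hw : (q.append r).IsPath := append_path q r hq hr fun v hv hv' => h1 v hv (hrB v hv')
    have hxy : x ≠ y := by
      rintro rfl
      exact hyA hxA
    have h3 := hS.ear hxS hyS hxy _ hw
    have hxc : x ≠ c := by
      rintro rfl
      exact hxB hc
    have h4 := hA.cl _ h3 x c hxc (Or.inl hxS) (Or.inr (by
      show c ∈ (q.append r).support
      rw [Walk.mem_support_append_iff]
      exact Or.inl q.end_mem_support)) hxA hcA
    exact hyA (h4 (Or.inl hyS))
  intro S hS x y hxy hxS hyS hx hy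
  by_cases hxA : x ∈ A
  · by_cases hyA : y ∈ A
    · exact (hA.cl S hS x y hxy hxS hyS hxA hyA).trans Set.subset_union_left
    · have hyB : y ∈ B := hy.resolve_left hyA
      by_cases hxB : x ∈ B
      · exact (hB.cl S hS x y hxy hxS hyS hxB hyB).trans Set.subset_union_right
      · exact (mix S hS x y hxS hyS hxA hyB hxB hyA).elim
  · have hxB : x ∈ B := hx.resolve_left hxA
    by_cases hyB : y ∈ B
    · exact (hB.cl S hS x y hxy hxS hyS hxB hyB).trans Set.subset_union_right
    · have hyA : y ∈ A := hy.resolve_right hyB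
      exact (mix S hS y x hyS hxS hyA hxB hyB hxA).elim

/-- A connected union of connected sets with a common vertex. -/
theorem conn_iUnion {ι : Type*} [Nonempty ι] (A : ι → Set V)
    (hA : ∀ i, (H.induce (A i)).Connected) {v : V} (hv : ∀ i, v ∈ A i) :
    (H.induce (⋃ i, A i)).Connected := by
  obtain ⟨i0⟩ := (inferInstance : Nonempty ι)
  have h1 := conn_patch (hA i0) (R := ⋃ i, A i) (fun x hx => by
    obtain ⟨i, hi⟩ := Set.mem_iUnion.1 hx
    exact ⟨A i, Set.subset_iUnion A i, hi, hA i, ⟨v, hv i0, hv i⟩⟩)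
  rwa [Set.union_eq_self_of_subset_left (Set.subset_iUnion A i0)] at h1

/-- A family of closed sets with a common vertex. -/
theorem Cl.iUnion {ι : Type*} [Nonempty ι] (A : ι → Set V) (hA : ∀ i, Cl H (A i)) {v : V}
    (hv : ∀ i, v ∈ A i) : Cl H (⋃ i, A i) := by
  refine ⟨conn_iUnion A (fun i => (hA i).conn) hv, ?_⟩
  intro S hS x y hxy hxS hyS hx hy
  obtain ⟨i, hi⟩ := Set.mem_iUnion.1 hx
  obtain ⟨j, hj⟩ := Set.mem_iUnion.1 hy
  have h1 := ((hA i).union (hA j) ⟨v, hv i, hv j⟩).cl S hS x y hxy hxS hyS (Or.inl hi) (Or.inr hj)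
  exact h1.trans (Set.union_subset (Set.subset_iUnion A i) (Set.subset_iUnion A j))

/-- A closed set together with closed sets that meet it. -/
theorem Cl.patch {ι : Type*} {A : Set V} (hA : Cl H A) (B : ι → Set V) (hB : ∀ i, Cl H (B i))
    (h : ∀ i, (A ∩ B i).Nonempty) : Cl H (A ∪ ⋃ i, B i) := by
  obtain ⟨⟨v, hv⟩⟩ := hA.conn.nonempty
  have h1 : Cl H (⋃ o : Option ι, (match o with | none => A | some i => A ∪ B i)) := by
    refine Cl.iUnion _ ?_ (v := v) ?_
    · rintro (_ | i)
      · exact hA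
      · exact hA.union (hB i) (h i)
    · rintro (_ | i)
      · exact hv
      · exact Or.inl hv
  have h2 : (⋃ o : Option ι, (match o with | none => A | some i => A ∪ B i)) = A ∪ ⋃ i, B i := by
    ext x
    simp only [Set.mem_iUnion, Set.mem_union, Option.exists]
    constructor
    · rintro (h | ⟨i, h | h⟩)
      · exact Or.inl h
      · exact Or.inl h
      · exact Or.inr ⟨i, h⟩
    · rintro (h | ⟨i, h⟩)
      · exact Or.inl h
      · exact Or.inr ⟨i, Or.inr h⟩
  rwa [h2] at h1

/-- The block of an edge that leaves a closed set. -/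
theorem Cl.leave [Finite V] {A : Set V} (hA : Cl H A) {y z : V} (hy : y ∈ A) (hz : z ∉ A)
    (hyz : H.Adj y z) : ∃ T, MxTwo H T ∧ y ∈ T ∧ z ∈ T ∧ ∀ x ∈ A, x ∈ T → x = y := by
  obtain ⟨T, hT, hsub⟩ := exists_mxTwo (two_adj hyz)
  have hyT : y ∈ T := hsub (by simp)
  have hzT : z ∈ T := hsub (by simp)
  refine ⟨T, hT, hyT, hzT, ?_⟩
  intro x hx hxT
  by_contra hxy
  exact hz (hA.cl T hT.1 x y hxy hxT hyT hx hy hzT)

/-- A path with both ends in a closed set stays in it. -/
theorem Cl.path_mem [Finite V] {A : Set V} (hA : Cl H A) {u v : V} (p : H.Walk u v)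
    (hp : p.IsPath) (hu : u ∈ A) (hv : v ∈ A) : ∀ x ∈ p.support, x ∈ A := by
  induction p with
  | nil =>
    intro x hx
    rw [Walk.support_nil, List.mem_singleton] at hx
    rw [hx]
    exact hu
  | @cons a b c hab p ih =>
    rw [Walk.cons_isPath_iff] at hp
    have hb : b ∈ A := by
      by_contra hb
      obtain ⟨T, hT, h1, h2, h3⟩ := hA.leave hu hb hab
      exact hp.2 (sep hA.conn hT hu h1 h3 h2 hv p)
    intro x hx
    rw [Walk.support_cons, List.mem_cons] at hx
    rcases hx with rfl | hx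
    · exact hu
    · exact ih hp.1 hb hv x hx

/-- Intersections. -/
theorem Cl.inter [Finite V] {A B : Set V} (hA : Cl H A) (hB : Cl H B) (h : (A ∩ B).Nonempty) :
    Cl H (A ∩ B) := by
  obtain ⟨z, hz⟩ := h
  refine ⟨?_, ?_⟩
  · have h1 := conn_patch (conn_single (H := H) z) (R := A ∩ B) (fun x hx => by
      obtain ⟨p, hp, hpA⟩ := exists_path hA.conn hx.1 hz.1
      refine ⟨{w | w ∈ p.support}, ?_, p.start_mem_support, p.connected_induce_support,
        ⟨z, rfl, p.end_mem_support⟩⟩
      intro w hw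
      exact ⟨hpA w hw, hB.path_mem p hp hx.2 hz.2 w hw⟩)
    rwa [Set.union_eq_self_of_subset_left (Set.singleton_subset_iff.2 hz)] at h1
  · intro S hS x y hxy hxS hyS hx hy
    exact Set.subset_inter (hA.cl S hS x y hxy hxS hyS hx.1 hy.1)
      (hB.cl S hS x y hxy hxS hyS hx.2 hy.2)

/-- The image of a set without cut vertices under an injective homomorphism. -/
theorem Two.map {W : Type} {G : SimpleGraph W} {S : Set V} (hS : Two H S) (f : V → W)
    (hf : ∀ a ∈ S, ∀ b ∈ S, f a = f b → a = b) (hom : ∀ a ∈ S, ∀ b ∈ S, H.Adj a b → G.Adj (f a) (f b)) :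
    Two G (f '' S) := by
  have key : ∀ R : Set V, R ⊆ S → (H.induce R).Connected → (G.induce (f '' R)).Connected := by
    intro R hR hc
    refine hc.map (⟨fun v => ⟨f v, v, v.2, rfl⟩, ?_⟩ : H.induce R →g G.induce (f '' R)) ?_
    · intro a b hab
      exact hom a (hR a.2) b (hR b.2) hab
    · rintro ⟨_, v, hv, rfl⟩
      exact ⟨⟨v, hv⟩, rfl⟩
  obtain ⟨x, hx, y, hy, hxy⟩ := hS.nt
  refine ⟨⟨f x, ⟨x, hx, rfl⟩, f y, ⟨y, hy, rfl⟩, fun h => hxy (hf x hx y hy h)⟩,
    key S subset_rfl hS.conn, ?_⟩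
  rintro _ ⟨a, ha, rfl⟩
  have h1 : f '' S \ {f a} = f '' (S \ {a}) := by
    ext w
    constructor
    · rintro ⟨⟨v, hv, rfl⟩, h2⟩
      refine ⟨v, ⟨hv, ?_⟩, rfl⟩
      rintro rfl
      exact h2 rfl
    · rintro ⟨v, ⟨hv, hv2⟩, rfl⟩
      exact ⟨⟨v, hv, rfl⟩, fun h => hv2 (hf v hv a ha h)⟩
  rw [h1]
  exact key _ Set.sdiff_subset (hS.cut a ha)

/-- Two different blocks share at most one vertex. -/
theorem MxTwo.eq {S T : Set V} (hS : MxTwo H S) (hT : MxTwo H T) {x y : V} (hxy : x ≠ y)
    (h1 : x ∈ S) (h2 : x ∈ T) (h3 : y ∈ S) (h4 : y ∈ T) : S = T :=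
  Set.Subset.antisymm (hT.cl.cl S hS.1 x y hxy h1 h3 h2 h4) (hS.cl.cl T hT.1 x y hxy h2 h4 h1 h3)

/-- `K` is a component of `H - u` (with a neighbour of `u`). -/
structure Branch (H : SimpleGraph V) (u : V) (K : Set V) : Prop where
  conn : (H.induce K).Connected
  nu : u ∉ K
  adj : ∃ x ∈ K, H.Adj u x
  cl : ∀ x ∈ K, ∀ y, H.Adj x y → y = u ∨ y ∈ K

/-- A connected set that meets a branch and avoids its root lies in the branch. -/
theorem Branch.absorb {u : V} {K R : Set V} (hK : Branch H u K) (hR : (H.induce R).Connected)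
    (hu : u ∉ R) (h : (R ∩ K).Nonempty) : R ⊆ K := by
  obtain ⟨x, hxR, hxK⟩ := h
  intro y hy
  obtain ⟨p, _, hp⟩ := exists_path hR hxR hy
  have key : ∀ {a b : V} (p : H.Walk a b), (∀ w ∈ p.support, w ∈ R) → a ∈ K → b ∈ K := by
    intro a b p
    induction p with
    | nil => exact fun _ h => h
    | @cons a b c hab p ih =>
      intro h1 ha
      refine ih (fun w hw => h1 w (by rw [Walk.support_cons, List.mem_cons]; exact Or.inr hw)) ?_
      rcases hK.cl a ha b hab with h2 | h2
      · exfalso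
        apply hu
        rw [← h2]
        exact h1 b (by rw [Walk.support_cons, List.mem_cons]; exact Or.inr p.start_mem_support)
      · exact h2
  exact key p hp hxK

/-- (B2) The vertices outside a closed set lie in branches at its vertices. -/
theorem Cl.branch [Finite V] {A : Set V} (hA : Cl H A) (hH : H.Connected) {x : V} (hx : x ∉ A) :
    ∃ u ∈ A, ∃ K, Branch H u K ∧ x ∈ K ∧ ∀ z ∈ K, z ∉ A := by
  obtain ⟨⟨s, hs⟩⟩ := hA.conn.nonempty
  obtain ⟨p⟩ := hH.preconnected x s
  obtain ⟨u, q, hq, hu, h1, _⟩ := first_hit A p hs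
  -- the last vertex before `u`
  obtain ⟨c, hc, hcu⟩ : ∃ c, (∃ r : H.Walk x c, ∀ w ∈ r.support, w ∉ A) ∧ H.Adj c u := by
    have key : ∀ {a b : V} (q : H.Walk a b), q.IsPath → a ∉ A → b ∈ A →
        (∀ w ∈ q.support, w ∈ A → w = b) →
        ∃ c, (∃ r : H.Walk a c, ∀ w ∈ r.support, w ∉ A) ∧ H.Adj c b := by
      intro a b q
      induction q with
      | nil => exact fun _ h1 h2 => absurd h2 h1
      | @cons a b c hab q ih =>
        intro hq ha hc h1
        rw [Walk.cons_isPath_iff] at hq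
        by_cases hb : b ∈ A
        · have hbc : b = c := h1 b (by
            rw [Walk.support_cons, List.mem_cons]
            exact Or.inr q.start_mem_support) hb
          subst hbc
          refine ⟨a, ⟨Walk.nil, ?_⟩, hab⟩
          intro w hw
          rw [Walk.support_nil, List.mem_singleton] at hw
          rw [hw]
          exact ha
        · obtain ⟨d, ⟨r, hr⟩, hd⟩ := ih hq.1 hb hc (fun w hw hwA => h1 w (by
            rw [Walk.support_cons, List.mem_cons]
            exact Or.inr hw) hwA)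
          refine ⟨d, ⟨Walk.cons hab r, ?_⟩, hd⟩
          intro w hw
          rw [Walk.support_cons, List.mem_cons] at hw
          rcases hw with rfl | hw
          · exact ha
          · exact hr w hw
    exact key q hq hx hu h1
  have hcA : c ∉ A := by
    obtain ⟨r, hr⟩ := hc
    exact hr c r.end_mem_support
  obtain ⟨T, hT, h2, h3, h4⟩ := hA.leave hu hcA hcu.symm
  refine ⟨u, hu, {z | ∃ r : H.Walk x z, ∀ w ∈ r.support, w ∉ A}, ⟨?_, ?_, ⟨c, hc, hcu.symm⟩, ?_⟩,
    ⟨Walk.nil, ?_⟩, ?_⟩
  · have h5 := conn_patch (conn_single (H := H) x)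
      (R := {z | ∃ r : H.Walk x z, ∀ w ∈ r.support, w ∉ A}) (fun z hz => by
      obtain ⟨r, hr⟩ := hz
      classical
      refine ⟨{w | w ∈ r.support}, ?_, r.end_mem_support, r.connected_induce_support,
        ⟨x, rfl, r.start_mem_support⟩⟩
      intro w hw
      exact ⟨r.takeUntil w hw, fun v hv => hr v (r.support_takeUntil_subset_support hw hv)⟩)
    rwa [Set.union_eq_self_of_subset_left] at h5
    rw [Set.singleton_subset_iff]
    refine ⟨Walk.nil, ?_⟩
    intro w hw
    rw [Walk.support_nil, List.mem_singleton] at hw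
    rw [hw]
    exact hx
  · rintro ⟨r, hr⟩
    exact hr u r.end_mem_support hu
  · rintro z ⟨r, hr⟩ y hzy
    by_cases hy : y ∈ A
    · left
      by_contra hyu
      -- a walk from `c` to `y` which avoids `u`
      obtain ⟨r', hr'⟩ := hc
      have h6 := sep hA.conn hT hu h2 h4 h3 hy ((r'.reverse.append r).concat hzy)
      rw [Walk.support_concat, List.mem_append] at h6
      rcases h6 with h6 | h6
      · rw [Walk.mem_support_append_iff, Walk.support_reverse, List.mem_reverse] at h6
        rcases h6 with h6 | h6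
        · exact hr' u h6 hu
        · exact hr u h6 hu
      · rw [List.mem_singleton] at h6
        exact hyu h6.symm
    · right
      refine ⟨r.concat hzy, ?_⟩
      intro w hw
      rw [Walk.support_concat, List.mem_append] at hw
      rcases hw with hw | hw
      · exact hr w hw
      · rw [List.mem_singleton] at hw
        rw [hw]
        exact hy
  · intro w hw
    rw [Walk.support_nil, List.mem_singleton] at hw
    rw [hw]
    exact hx
  · rintro z ⟨r, hr⟩
    exact hr z r.end_mem_support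

/-- (B3) The block at the root of a branch. -/
theorem Branch.block [Finite V] {u : V} {K : Set V} (hK : Branch H u K) :
    ∃ T, MxTwo H T ∧ u ∈ T ∧ (T ∩ K).Nonempty ∧ T ⊆ insert u K ∧
      ∀ T', MxTwo H T' → u ∈ T' → (T' ∩ K).Nonempty → T' = T := by
  obtain ⟨x, hx, hux⟩ := hK.adj
  obtain ⟨T, hT, hsub⟩ := exists_mxTwo (two_adj hux)
  have huT : u ∈ T := hsub (by simp)
  have hxT : x ∈ T := hsub (by simp)
  refine ⟨T, hT, huT, ⟨x, hxT, hx⟩, ?_, ?_⟩
  · have h1 := hK.absorb (hT.1.cut u huT) (fun h => h.2 rfl)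
      ⟨x, ⟨hxT, fun h => hux.ne (h.symm)⟩, hx⟩
    intro y hy
    by_cases h : y = u
    · exact Or.inl h
    · exact Or.inr (h1 ⟨hy, h⟩)
  · rintro T' hT' huT' ⟨y, hyT', hy⟩
    by_contra hne
    have h1 : ∀ z ∈ T, z ∈ T' → z = u := by
      intro z hz hz'
      by_contra hzu
      exact hne (hT'.eq hT hzu hz' hz huT' huT)
    obtain ⟨p, _, hp⟩ := exists_path hK.conn hy hx
    have h2 := sep hT.1.conn hT' huT huT' h1 hyT' hxT p
    exact hK.nu (hp u h2)

/-- Every vertex of a closed set with at least two vertices lies in a block of the set. -/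
theorem Cl.exists_block [Finite V] {A : Set V} (hA : Cl H A) {x : V} (hx : x ∈ A)
    (h : ∃ y ∈ A, y ≠ x) : ∃ T, MxTwo H T ∧ x ∈ T ∧ T ⊆ A := by
  obtain ⟨y, hy, hyx⟩ := h
  obtain ⟨p, hp, hpA⟩ := exists_path hA.conn hx hy
  cases p with
  | nil => exact absurd rfl hyx
  | @cons _ z _ hxz p =>
    have hz : z ∈ A := hpA z (by
      rw [Walk.support_cons, List.mem_cons]
      exact Or.inr p.start_mem_support)
    obtain ⟨T, hT, hsub⟩ := exists_mxTwo (two_adj hxz)
    exact ⟨T, hT, hsub (by simp), hA.cl T hT.1 x z hxz.ne (hsub (by simp)) (hsub (by simp)) hx hz⟩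

/-- A closed set with only one block at `u` is connected without `u`. -/
theorem Cl.diff_conn [Finite V] {W T : Set V} (hW : Cl H W) {u : V} (hT : MxTwo H T)
    (huT : u ∈ T) (hTW : T ⊆ W) (h : ∀ T', MxTwo H T' → u ∈ T' → T' ⊆ W → T' = T) :
    (H.induce (W \ {u})).Connected := by
  have h1 := conn_patch (hT.1.cut u huT) (R := W \ {u}) (fun x hx => by
    -- a path from `x` to `u`
    obtain ⟨p, hp, hpW⟩ := exists_path hW.conn hx.1 (hTW huT)
    have key : ∀ {a b : V} (p : H.Walk a b), p.IsPath → (∀ w ∈ p.support, w ∈ W) → a ≠ b →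
        b = u → ∃ (c : V) (r : H.Walk a c), (∀ w ∈ r.support, w ∈ W \ {u}) ∧ H.Adj c u := by
      intro a b p
      induction p with
      | nil => exact fun _ _ h => absurd rfl h
      | @cons a b c hab p ih =>
        intro hp hpW hac hcu
        rw [Walk.cons_isPath_iff] at hp
        have haW : a ∈ W := hpW a (by rw [Walk.support_cons, List.mem_cons]; exact Or.inl rfl)
        have hau : a ∉ ({u} : Set V) := by
          rintro rfl
          exact hac hcu.symm
        by_cases hbc : b = c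
        · refine ⟨a, Walk.nil, ?_, ?_⟩
          · intro w hw
            rw [Walk.support_nil, List.mem_singleton] at hw
            rw [hw]
            exact ⟨haW, hau⟩
          · rw [← hcu, ← hbc]
            exact hab
        · obtain ⟨d, r, h2, h3⟩ := ih hp.1 (fun w hw => hpW w (by
            rw [Walk.support_cons, List.mem_cons]
            exact Or.inr hw)) hbc hcu
          refine ⟨d, Walk.cons hab r, ?_, h3⟩
          intro w hw
          rw [Walk.support_cons, List.mem_cons] at hw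
          rcases hw with rfl | hw
          · exact ⟨haW, hau⟩
          · exact h2 w hw
    obtain ⟨c, r, h2, h3⟩ := key p hp hpW hx.2 rfl
    refine ⟨{w | w ∈ r.support}, fun w hw => h2 w hw, r.start_mem_support,
      r.connected_induce_support, ⟨c, ?_, r.end_mem_support⟩⟩
    have hc := h2 c r.end_mem_support
    obtain ⟨T', hT', hsub⟩ := exists_mxTwo (two_adj h3)
    have h4 : T' = T := h T' hT' (hsub (by simp))
      (hW.cl T' hT'.1 c u h3.ne (hsub (by simp)) (hsub (by simp)) hc.1 (hTW huT))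
    rw [← h4]
    exact ⟨hsub (by simp), hc.2⟩)
  rwa [Set.union_eq_self_of_subset_left (Set.sdiff_subset_sdiff_left hTW)] at h1

/-- There are no edges between a closed set and the inside of a branch except at the root. -/
theorem Branch.no_edge {u : V} {K A : Set V} (hK : Branch H u K) (hA : ∀ z ∈ K, z ∉ A) {x y : V}
    (hx : x ∈ A) (hy : y ∈ K) (h : H.Adj x y) : x = u := by
  rcases hK.cl y hy x h.symm with h1 | h1
  · exact h1
  · exact absurd hx (hA x h1)

/-- Induction over a connected graph by gluing connected unions of blocks in branches. -/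
theorem Cl.glue [Finite V] (hH : H.Connected) (P : Set V → Prop) (root : V) (h0 : P {root})
    (step : ∀ A, Cl H A → root ∈ A → P A → ∀ u ∈ A, ∀ K, Branch H u K → (∀ z ∈ K, z ∉ A) →
      ∃ W, Cl H W ∧ u ∈ W ∧ (∃ x ∈ W, x ≠ u) ∧ W ⊆ insert u K ∧ P (A ∪ W)) : P Set.univ := by
  obtain ⟨A, hA, hm⟩ := (Set.toFinite {A : Set V | Cl H A ∧ root ∈ A ∧ P A}).exists_maximal
    ⟨{root}, Cl.single root, rfl, h0⟩
  by_cases hne : A = Set.univ
  · rw [← hne]
    exact hA.2.2
  exfalso
  obtain ⟨x, hx⟩ := (Set.ne_univ_iff_exists_notMem A).1 hne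
  obtain ⟨u, hu, K, hK, _, hKA⟩ := hA.1.branch hH hx
  obtain ⟨W, hW, huW, ⟨y, hy, hyu⟩, hWK, hP⟩ := step A hA.1 hA.2.1 hA.2.2 u hu K hK hKA
  have h1 := hm ⟨hA.1.union hW ⟨u, hu, huW⟩, Or.inl hA.2.1, hP⟩ Set.subset_union_left
  have h2 : y ∈ A := h1 (Or.inr hy)
  rcases hWK hy with h3 | h3
  · exact hyu h3
  · exact hKA y h3 h2

end MP3240L
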